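import Mathlib
import Pool.Agent.Lib.MP_5011cf_an.Uniqueness

/-!
# MP_5011cf_an: prescribed radial limits of the derivative of a univalent function

The assertion of Q1 is false.  In fact, every measurable target `m₀` has measurable targets `m`,
uniformly as close to `m₀` as desired, which are not attained by any `f ∈ 𝒰`.
The reason is a uniqueness theorem for derivatives of univalent functions (file `Uniqueness.lean`
in `Pool/Agent/Lib/MP_5011cf_an`).
-/

open Metric Set Filter Topology MeasureTheory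
open scoped Real

namespace Pool.Agent.Results.MP_5011cf_an.UnattainableTargets

/-- The class `𝒰`: maps which are continuous on the closed unit disc and whose restriction to the
open unit disc is univalent, i.e. holomorphic and injective. -/
def ClassU (f : ℂ → ℂ) : Prop :=
  ContinuousOn f (closedBall 0 1) ∧ DifferentiableOn ℂ f (ball 0 1) ∧ InjOn f (ball 0 1)

/-- For almost every `θ ∈ [0, 2π)` the radial limit `lim_{r → 1-} f'(r e^{iθ})` exists and equals
`m θ`. -/
def HasRadialLimitsAE (f : ℂ → ℂ) (m : ℝ → ℂ) : Prop :=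
  ∀ᵐ θ : ℝ ∂(volume.restrict (Ico (0 : ℝ) (2 * π))),
    Tendsto (fun r : ℝ => deriv f (r * Complex.exp (θ * Complex.I))) (𝓝[<] 1) (𝓝 (m θ))

/-- For every measurable `m₀` and every `ε > 0` there is a measurable `m` with
`|m - m₀| ≤ ε` everywhere such that no `f ∈ 𝒰` has radial limits of `f'` equal to `m` almost
everywhere. -/
theorem result (m₀ : ℝ → ℂ) (hm₀ : Measurable m₀) (ε : ℝ) (hε : 0 < ε) :
    ∃ m : ℝ → ℂ, Measurable m ∧ (∀ θ, ‖m θ - m₀ θ‖ ≤ ε) ∧
      ∀ f : ℂ → ℂ, ClassU f → ¬ HasRadialLimitsAE f m := by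
  by_contra hcon
  push Not at hcon
  have hπ := Real.pi_pos
  -- the first target
  obtain ⟨f₁, hf₁, h₁⟩ := hcon m₀ hm₀ (fun θ => by simp [hε.le])
  -- the second target
  let m₂ : ℝ → ℂ := fun θ => m₀ θ + (Ici π).indicator (fun _ => (ε : ℂ)) θ
  have hm₂ : Measurable m₂ := hm₀.add (measurable_const.indicator measurableSet_Ici)
  obtain ⟨f₂, hf₂, h₂⟩ := hcon m₂ hm₂ (fun θ => by
    simp only [m₂, add_sub_cancel_left]
    by_cases h : θ ∈ Ici π
    · rw [indicator_of_mem h, Complex.norm_real, Real.norm_of_nonneg hε.le]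
    · rw [indicator_of_notMem h, norm_zero]; exact hε.le)
  unfold HasRadialLimitsAE at h₁ h₂
  rw [ae_restrict_iff' measurableSet_Ico] at h₁ h₂
  have h12 := h₁.and h₂
  -- the derivatives agree
  have heq : ∀ z ∈ ball (0 : ℂ) 1, deriv f₁ z = deriv f₂ z := by
    apply Pool.Agent.Lib.MP_5011cf_an.uniqueness_univalent hf₁.2.1 hf₁.2.2 hf₂.2.1 hf₂.2.2
    have hpos : 0 < volume (Ioo (0 : ℝ) π) := by
      rw [Real.volume_Ioo]; simpa using hπ
    refine hpos.trans_le (measure_mono_ae ?_)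
    filter_upwards [h12] with θ hθ hmem
    have hθ' : θ ∈ Ioo (0 : ℝ) π := hmem
    have hI : θ ∈ Ico (0 : ℝ) (2 * π) := ⟨hθ'.1.le, by linarith [hθ'.2]⟩
    have h3 := hθ.1 hI
    have h4 := hθ.2 hI
    have h5 : m₂ θ = m₀ θ := by
      simp only [m₂]
      rw [indicator_of_notMem (by simpa using hθ'.2), add_zero]
    rw [h5] at h4
    refine ⟨⟨m₀ θ, ?_, ?_⟩, ⟨hθ'.1, by linarith [hθ'.2]⟩⟩
    · simpa [Pool.Agent.Lib.MP_5011cf_an.e_eq] using h3
    · simpa [Pool.Agent.Lib.MP_5011cf_an.e_eq] using h4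
  -- a point where the limits differ
  have hpos : 0 < volume (Ioo π (2 * π)) := by
    rw [Real.volume_Ioo]
    simp only [ENNReal.ofReal_pos]
    linarith
  have hex : ∃ θ ∈ Ioo π (2 * π), (θ ∈ Ico (0 : ℝ) (2 * π) →
      Tendsto (fun r : ℝ => deriv f₁ (r * Complex.exp (θ * Complex.I))) (𝓝[<] 1) (𝓝 (m₀ θ))) ∧
      (θ ∈ Ico (0 : ℝ) (2 * π) →
      Tendsto (fun r : ℝ => deriv f₂ (r * Complex.exp (θ * Complex.I))) (𝓝[<] 1) (𝓝 (m₂ θ))) := by
    by_contra hno
    push Not at hno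
    have h6 : volume (Ioo π (2 * π)) = 0 := by
      refine measure_mono_null ?_ h12
      intro θ hθ hc
      exact absurd hc.2 (by
        intro h7
        exact hno θ hθ hc.1 |>.elim (fun hI hnt => hnt (h7 hI)))
    exact hpos.ne' h6
  obtain ⟨θ, hθ, h3, h4⟩ := hex
  have hI : θ ∈ Ico (0 : ℝ) (2 * π) := ⟨by linarith [hθ.1], hθ.2⟩
  have h5 : m₂ θ = m₀ θ + ε := by
    simp only [m₂]
    rw [indicator_of_mem (by simpa using hθ.1.le)]
  have h3' := h3 hI
  have h4' := h4 hI
  rw [h5] at h4'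
  have h6 : (fun r : ℝ => deriv f₁ (r * Complex.exp (θ * Complex.I))) =ᶠ[𝓝[<] 1]
      (fun r : ℝ => deriv f₂ (r * Complex.exp (θ * Complex.I))) := by
    have : Ioo (0 : ℝ) 1 ∈ 𝓝[<] (1 : ℝ) := Ioo_mem_nhdsLT one_pos
    filter_upwards [this] with r hr
    apply heq
    rw [mem_ball_zero_iff, norm_mul, Complex.norm_exp_ofReal_mul_I, mul_one, Complex.norm_real,
      Real.norm_of_nonneg hr.1.le]
    exact hr.2
  have h7 := tendsto_nhds_unique (h3'.congr' h6) h4'
  have h8 : (ε : ℂ) = 0 := by linear_combination -h7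
  exact hε.ne' (by exact_mod_cast h8)

end Pool.Agent.Results.MP_5011cf_an.UnattainableTargets
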